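import Pool.Agent.PGA.Word


/-!
# Sum over the extents (helper46)

* `wca_ex`: every closed word is in a box;
* **`P2_of`**: from the weights of the closed words in the box of radius `2 ^ (K + 1)` and not in the box of
  radius `2 ^ K`, to the closed words that are not in the box of radius `2 ^ K`.
-/

set_option autoImplicit false

open scoped ENNReal

namespace HexObs

namespace PGA

open LP SDN Finset

lemma lvl_sq' (dir : Bool) (v : Pt) : lvl dir v ^ 2 ≤ 4 * nrm v := by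
  cases dir
  · simp only [lvl, hd, ip, nrm, up, Bool.false_eq_true, if_false]
    nlinarith [sq_nonneg v.1]
  · simp only [lvl, hd, ip, nrm, if_true]
    nlinarith [sq_nonneg v.2]

lemma lvl_step (dir : Bool) (t : List Bool) (i : ℕ) : |lvl dir (vx oo up t i)| ≤ 2 * i := by
  induction i with
  | zero =>
    have : vx oo up t 0 = 0 := rfl
    rw [this]
    have h0 : lvl dir 0 = 0 := by
      unfold lvl ip
      simp
    rw [h0]
    simp
  | succ i ih =>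
    have e : vx oo up t (i + 1) = vx oo up t i + dx up t i := rfl
    have e2 : lvl dir (vx oo up t i + dx up t i) = lvl dir (vx oo up t i) + lvl dir (dx up t i) := by
      unfold lvl ip
      rw [Prod.fst_add, Prod.snd_add]
      ring
    have h1 : nrm (dx up t i) = 1 := mem_dirs.1 (dx_mem up_dirs t i)
    have h2 := lvl_sq' dir (dx up t i)
    rw [h1] at h2
    have h3 : |lvl dir (dx up t i)| ≤ 2 := abs_le_of_sq_le_sq (by linarith) (by norm_num)
    rw [e, e2]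
    refine (abs_add_le _ _).trans ?_
    push_cast
    linarith

lemma row_step (dir : Bool) (t : List Bool) (i : ℕ) : |row dir (vx oo up t i)| ≤ i := by
  have h := lvl_step dir t i
  unfold row
  rw [abs_le] at h ⊢
  omega

lemma wca_ex {N : ℕ} {t : List Bool} (ht : t ∈ CyA N) : t ∈ WCA N N := by
  refine ⟨ht, fun X Y _ i hi dir => (row_step dir _ i).trans ?_⟩
  have h1 : N < 2 ^ N := Nat.lt_two_pow_self
  exact_mod_cast hi.trans h1.le

lemma gf_iUnion_le {P : Set (List Bool)} {E : ℕ → Set (List Bool)} (h : P ⊆ ⋃ j, E j) : gf P ≤ ∑' j, gf (E j) := by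
  unfold gf
  exact (ENNReal.tsum_mono_subtype (fun t => wE t) h).trans (ENNReal.tsum_iUnion_le_tsum (fun t => wE t) E)

/-- the closed words that leave the box, large boxes -/
theorem P2_big {w : ℕ → ℝ} {c C : ℝ} {k0 : ℕ} (hc : 0 < c) (hC : 0 ≤ C)
    (hw : ∀ k : ℕ, c * (2 : ℝ) ^ (10 / 3 * (k : ℝ)) ≤ w k)
    (hU : ∀ N K : ℕ, 1 ≤ N → k0 ≤ K → gf (WCA N (K + 1) \ WCA N K) ≤ ENNReal.ofReal (C * N / w (K + 1))) :
    ∀ N K : ℕ, 1 ≤ N → k0 ≤ K → gf {t | t ∈ CyA N ∧ t ∉ WCA N K} ≤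
      ENNReal.ofReal (C / c * N * (2 : ℝ) ^ (-(10 / 3) * (K : ℝ))) := by
  intro N K hN hK0
  have hsub : {t | t ∈ CyA N ∧ t ∉ WCA N K} ⊆ ⋃ j : ℕ, (WCA N (K + j + 1) \ WCA N (K + j)) := by
    rintro t ⟨ht, hK⟩
    by_contra hcon
    simp only [Set.mem_iUnion, Set.mem_diff, not_exists, not_and, not_not] at hcon
    have h1 : ∀ j : ℕ, t ∉ WCA N (K + j) := by
      intro j
      induction j with
      | zero => exact hK
      | succ j ih => exact fun h => ih (hcon j h)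
    have h2 : t ∈ WCA N (K + N) := by
      refine ⟨ht, fun X Y h i hi dir => ((wca_ex ht).2 X Y h i hi dir).trans ?_⟩
      exact pow_le_pow_right₀ (by norm_num) (by omega)
    exact h1 N h2
  refine (gf_iUnion_le hsub).trans ?_
  have h1 : ∀ j : ℕ, gf (WCA N (K + j + 1) \ WCA N (K + j)) ≤
      ENNReal.ofReal (C / c * N * (2 : ℝ) ^ (-(10 / 3) * (K : ℝ)) * (1 / 8) * (1 / 8) ^ j) := by
    intro j
    refine (hU N (K + j) hN (by omega)).trans (ENNReal.ofReal_le_ofReal ?_)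
    have h2 := hw (K + j + 1)
    have h3 : 0 < c * (2 : ℝ) ^ (10 / 3 * ((K + j + 1 : ℕ) : ℝ)) := by positivity
    have h4 : C * N / w (K + j + 1) ≤ C * N / (c * (2 : ℝ) ^ (10 / 3 * ((K + j + 1 : ℕ) : ℝ))) :=
      div_le_div_of_nonneg_left (by positivity) h3 h2
    refine h4.trans ?_
    have h5 : ((2 : ℝ) ^ (10 / 3 * ((K + j + 1 : ℕ) : ℝ)))⁻¹ ≤ (2 : ℝ) ^ (-(10 / 3) * (K : ℝ)) * (1 / 8) * (1 / 8) ^ j := by
      have e1 : (1 / 8 : ℝ) * (1 / 8) ^ j = (2 : ℝ) ^ (-3 * ((j : ℝ) + 1)) := by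
        have : (2 : ℝ) ^ (-3 * ((j : ℝ) + 1)) = ((2 : ℝ) ^ (-3 : ℝ)) ^ (j + 1) := by
          rw [← Real.rpow_natCast, ← Real.rpow_mul two_pos.le]
          push_cast
          ring_nf
        rw [this, Real.rpow_neg two_pos.le, ← pow_succ']
        norm_num
      rw [mul_assoc, e1, ← Real.rpow_neg two_pos.le, ← Real.rpow_add two_pos]
      apply Real.rpow_le_rpow_of_exponent_le one_le_two
      push_cast
      have : (0 : ℝ) ≤ j := Nat.cast_nonneg j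
      linarith
    calc C * N / (c * (2 : ℝ) ^ (10 / 3 * ((K + j + 1 : ℕ) : ℝ))) =
        C / c * N * ((2 : ℝ) ^ (10 / 3 * ((K + j + 1 : ℕ) : ℝ)))⁻¹ := by
          field_simp
      _ ≤ C / c * N * ((2 : ℝ) ^ (-(10 / 3) * (K : ℝ)) * (1 / 8) * (1 / 8) ^ j) :=
          mul_le_mul_of_nonneg_left h5 (by positivity)
      _ = _ := by ring
  refine (ENNReal.tsum_le_tsum h1).trans ?_
  obtain ⟨D, hD⟩ : ∃ D, D = C / c * N * (2 : ℝ) ^ (-(10 / 3) * (K : ℝ)) := ⟨_, rfl⟩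
  have hD0 : 0 ≤ D := by rw [hD]; positivity
  rw [← hD, ← ENNReal.ofReal_tsum_of_nonneg (fun j => by positivity)
    ((summable_geometric_of_lt_one (by norm_num) (by norm_num)).mul_left _), tsum_mul_left,
    tsum_geometric_of_lt_one (by norm_num) (by norm_num)]
  refine ENNReal.ofReal_le_ofReal ?_
  norm_num
  linarith

/-- **the closed words that leave the box** -/
theorem P2_of {w : ℕ → ℝ} {c C C1 : ℝ} {k0 : ℕ} (hc : 0 < c) (hC : 0 ≤ C) (hC1 : 0 ≤ C1)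
    (hw : ∀ k : ℕ, c * (2 : ℝ) ^ (10 / 3 * (k : ℝ)) ≤ w k)
    (hU : ∀ N K : ℕ, 1 ≤ N → k0 ≤ K → gf (WCA N (K + 1) \ WCA N K) ≤ ENNReal.ofReal (C * N / w (K + 1)))
    (P1 : ∀ N : ℕ, 1 ≤ N → gf (CyA N) ≤ ENNReal.ofReal (C1 * (N : ℝ) ^ (-(3 / 2) : ℝ))) :
    ∃ C2 : ℝ, 0 ≤ C2 ∧ ∀ N K : ℕ, 1 ≤ N → gf {t | t ∈ CyA N ∧ t ∉ WCA N K} ≤
      ENNReal.ofReal (C2 * N * (2 : ℝ) ^ (-(10 / 3) * (K : ℝ))) := by
  refine ⟨C / c + C1 * (2 : ℝ) ^ (10 / 3 * (k0 : ℝ)), by positivity, fun N K hN => ?_⟩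
  rcases Nat.lt_or_ge K k0 with hK | hK
  · have h1 : gf {t | t ∈ CyA N ∧ t ∉ WCA N K} ≤ gf (CyA N) :=
      ENNReal.tsum_mono_subtype (fun t => wE t) fun t ht => ht.1
    refine h1.trans ((P1 N hN).trans (ENNReal.ofReal_le_ofReal ?_))
    have hN1 : (1 : ℝ) ≤ N := by exact_mod_cast hN
    have h2 : (N : ℝ) ^ (-(3 / 2) : ℝ) ≤ 1 := Real.rpow_le_one_of_one_le_of_nonpos hN1 (by norm_num)
    have h3 : 1 ≤ (2 : ℝ) ^ (10 / 3 * (k0 : ℝ)) * (2 : ℝ) ^ (-(10 / 3) * (K : ℝ)) := by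
      rw [← Real.rpow_add two_pos]
      apply Real.one_le_rpow one_le_two
      have : (K : ℝ) ≤ k0 := by exact_mod_cast hK.le
      linarith
    have h4 : (N : ℝ) ^ (-(3 / 2) : ℝ) ≤ N * ((2 : ℝ) ^ (10 / 3 * (k0 : ℝ)) * (2 : ℝ) ^ (-(10 / 3) * (K : ℝ))) := by
      refine h2.trans ?_
      calc (1 : ℝ) = 1 * 1 := by ring
        _ ≤ _ := mul_le_mul hN1 h3 zero_le_one (by linarith)
    have h5 : 0 ≤ C / c * N * (2 : ℝ) ^ (-(10 / 3) * (K : ℝ)) := by positivity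
    calc C1 * (N : ℝ) ^ (-(3 / 2) : ℝ) ≤
        C1 * (N * ((2 : ℝ) ^ (10 / 3 * (k0 : ℝ)) * (2 : ℝ) ^ (-(10 / 3) * (K : ℝ)))) :=
          mul_le_mul_of_nonneg_left h4 hC1
      _ ≤ C1 * (N * ((2 : ℝ) ^ (10 / 3 * (k0 : ℝ)) * (2 : ℝ) ^ (-(10 / 3) * (K : ℝ)))) +
          C / c * N * (2 : ℝ) ^ (-(10 / 3) * (K : ℝ)) := le_add_of_nonneg_right h5
      _ = _ := by ring
  · refine (P2_big hc hC hw hU N K hN hK).trans (ENNReal.ofReal_le_ofReal ?_)
    refine mul_le_mul_of_nonneg_right (mul_le_mul_of_nonneg_right ?_ (Nat.cast_nonneg N)) (by positivity)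
    exact le_add_of_nonneg_right (by positivity)

end PGA

end HexObs
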