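import Pool.Agent.PGA.Sharp
import Pool.Agent.PGA.Layer
import Pool.Agent.POL.Fin
import Pool.Agent.WX.SLogX

/-!
# The area of the polygons by length up to a constant, no hypothesis (helper46)
-/

set_option autoImplicit false

open scoped ENNReal

namespace HexObs

namespace PGA

open TH

/-- **the total area of the polygons with at most `n` sites is `log n / (8 π) + O(1)`** -/
theorem area_len : (∀ n : ℕ, ∑' L : {L : List (ℤ × ℤ) // HexPolygon.Polygon L ∧ L.length ≤ n},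
      HexPolygon.wt L.1 * (area L.1 : ℝ≥0∞) ≠ ∞) ∧
    ∃ C : ℝ, ∀ n : ℕ, 1 ≤ n → |(∑' L : {L : List (ℤ × ℤ) // HexPolygon.Polygon L ∧ L.length ≤ n},
      HexPolygon.wt L.1 * (area L.1 : ℝ≥0∞)).toReal - Real.log n / (8 * Real.pi)| ≤ C := by
  obtain ⟨C1, hC1, P1⟩ := POL.P1
  obtain ⟨C, k0, hC, hU⟩ := POL.upU
  obtain ⟨c, hc, hlow⟩ := VF.mLow VF.sharpZ
  have hw : ∀ k : ℕ, c * (2 : ℝ) ^ (10 / 3 * (k : ℝ)) ≤ JNT.w4 JNT.mM k := by
    intro k
    have e4 : (4 : ℝ) ^ k = (2 : ℝ) ^ (2 * (k : ℝ)) := by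
      rw [Real.rpow_mul two_pos.le, Real.rpow_natCast]
      norm_num
    have e : (2 : ℝ) ^ (10 / 3 * (k : ℝ)) = (2 : ℝ) ^ (4 / 3 * (k : ℝ)) * 4 ^ k := by
      rw [e4, ← Real.rpow_add two_pos]
      congr 1
      ring
    rw [e, ← mul_assoc]
    exact mul_le_mul_of_nonneg_right (hlow k) (by positivity)
  obtain ⟨C2, hC2, P2⟩ := P2_of hc hC hC1.le hw hU P1
  exact area_sharp WX.sLog hC1.le hC2 P1 P2

end PGA

end HexObs

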