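import Pool.Agent.PGA.Word
import Pool.Agent.HexLoop.DefsD
import Pool.Agent.TH.Rows

/-!
# The extent of a polygon around the central face and the boxes of its turn words (helper46)

* `far_word`: a polygon around `f0` that leaves the centred box `PP (2 ^ i - 1) (2 ^ i - 1)` has no turn word in
  `WCA N (i - 2)` (`4 ≤ i`).
-/

set_option autoImplicit false

namespace HexObs

namespace PGA

open LP SDN Finset

lemma nrm_of_row {v : Pt} {K : ℕ} (h : ∀ dir, |row dir v| ≤ 2 ^ K) : nrm v ≤ 25 * 4 ^ K := by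
  have h1 := h false
  have h2 := h true
  have hK : (1 : ℤ) ≤ 2 ^ K := one_le_pow₀ (by norm_num)
  have e4 : (4 : ℤ) ^ K = 2 ^ K * 2 ^ K := by rw [← mul_pow]; norm_num
  rw [e4]
  generalize (2 : ℤ) ^ K = M at *
  have a1 : lvl false v = v.1 + 2 * v.2 := by
    simp only [lvl, hd, ip, up, Bool.false_eq_true, if_false]
    ring
  have a2 : lvl true v = -(2 * v.1 + v.2) := by
    simp only [lvl, hd, ip, if_true]
    ring
  unfold row at h1 h2
  rw [a1, abs_le] at h1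
  rw [a2, abs_le] at h2
  obtain ⟨A, hA⟩ : ∃ A, A = v.1 + 2 * v.2 := ⟨_, rfl⟩
  obtain ⟨B, hB⟩ : ∃ B, B = 2 * v.1 + v.2 := ⟨_, rfl⟩
  have b1 : -(5 * M) ≤ A ∧ A ≤ 5 * M := by omega
  have b2 : -(5 * M) ≤ B ∧ B ≤ 5 * M := by omega
  have e : 3 * nrm v = A ^ 2 - A * B + B ^ 2 := by
    rw [hA, hB]
    unfold nrm
    ring
  have c1 : A ^ 2 ≤ (5 * M) ^ 2 := sq_le_sq' b1.1 b1.2
  have c2 : B ^ 2 ≤ (5 * M) ^ 2 := sq_le_sq' b2.1 b2.2
  nlinarith [sq_nonneg (A + B)]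

lemma near_aux {v d : Pt} {τ : ℕ → Bool} {N K i j : ℕ} (h : Poly v d τ N) (hw : wr τ N ∈ WCA N K) (hij : i ≤ j)
    (hj : j ≤ N) : nrm (vs v d τ j - vs v d τ i) ≤ 25 * 4 ^ K := by
  obtain ⟨X, Y, h1, h2⟩ := wr_rot h (k := i) (by omega)
  have h3 := (poly_rot h i).1
  have hds : ds d τ i ∈ dirs := h3.de.1
  obtain ⟨hc, hd⟩ := frame_dir hds
  have hu : nrm (rotTo up (ds d τ i)) = 1 := mem_dirs.1 hc
  have h4 : vs v d τ j = vs v d τ i + mulE (rotTo up (ds d τ i)) (vx oo up (Y ++ X) (j - i)) := by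
    rw [← h2, ← vx_frameN, ← hd, vx_wr _ _ _ (by omega), ← vs_shift, show i + (j - i) = j by omega]
  rw [h4, add_sub_cancel_left, nrm_mulE, hu, one_mul]
  exact nrm_of_row fun dir => hw.2 X Y h1 (j - i) (by omega) dir

lemma near {v d : Pt} {τ : ℕ → Bool} {N K : ℕ} (h : Poly v d τ N) (hw : wr τ N ∈ WCA N K) {a b : Pt}
    (ha : a ∈ VE (pe v d τ N)) (hb : b ∈ VE (pe v d τ N)) : nrm (a - b) ≤ 25 * 4 ^ K := by
  have key : ∀ a ∈ VE (pe v d τ N), ∃ i, i < N ∧ vs v d τ i = a := by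
    intro a ha
    unfold VE pe at ha
    rw [Finset.image_image, Finset.mem_image] at ha
    obtain ⟨i, hi, rfl⟩ := ha
    exact ⟨i, Finset.mem_range.1 hi, rfl⟩
  obtain ⟨i, hi, rfl⟩ := key a ha
  obtain ⟨j, hj, rfl⟩ := key b hb
  rcases le_total i j with h1 | h1
  · rw [← nrm_neg, neg_sub]
    exact near_aux h hw h1 hj.le
  · exact near_aux h hw h1 hi.le

lemma cross_f0 {E : Finset (Pt × Pt)} (hN : Nw E f0 ≠ 0) : ∃ v ∈ VE E, |nn v - 1| ≤ 1 := by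
  unfold Nw at hN
  obtain ⟨p, hp, hp2⟩ := Finset.exists_ne_zero_of_sum_ne_zero hN
  refine ⟨p.1, Finset.mem_image.2 ⟨p, hp, rfl⟩, ?_⟩
  have e : nn f0 = 1 := by decide
  unfold cr at hp2
  rw [e] at hp2
  rw [abs_le]
  split_ifs at hp2 with h1 h2
  · have := h1.2.1
    constructor <;> omega
  · have := h2.2.1
    constructor <;> omega
  · exact absurd rfl hp2

/-- a polygon around `f0` that leaves the centred box has two vertices far from each other -/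
lemma far_pair {E : Finset (Pt × Pt)} (hE : IsPoly E) (hN : Nw E f0 ≠ 0) {m : ℕ} (h : ¬ VE E ⊆ PP m m) :
    ∃ a ∈ VE E, ∃ b ∈ VE E, (3 * (m : ℤ) - 1) ≤ |lv (a - b)| ∨ (3 * (m : ℤ) - 1) ≤ |nn (a - b)| := by
  obtain ⟨v, hv, hv2⟩ := Finset.not_subset.1 h
  rw [mem_PP] at hv2
  have hVt : Vt v := TH.vt_of_mem hE hv
  have h1 : ¬ (|lv v - 1| < 3 * m ∧ |nn v - 1| < 3 * m) := fun h2 => hv2 ⟨hVt, h2⟩
  have hf : Fc f0 := by unfold Fc; decide
  have e : lv f0 = 1 := by decide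
  have s1 : ∀ a b : Pt, lv (a - b) = lv a - lv b := by
    intro a b
    unfold lv
    rw [Prod.fst_sub, Prod.snd_sub]
    ring
  have s2 : ∀ a b : Pt, nn (a - b) = nn a - nn b := by
    intro a b
    unfold nn
    rw [Prod.fst_sub, Prod.snd_sub]
    ring
  by_cases h2 : |lv v - 1| < 3 * m
  · have h3 : 3 * (m : ℤ) ≤ |nn v - 1| := by
      by_contra hc
      exact h1 ⟨h2, by omega⟩
    obtain ⟨w, hw, hw2⟩ := cross_f0 hN
    refine ⟨v, hv, w, hw, Or.inr ?_⟩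
    rw [s2]
    rw [abs_le] at hw2
    rcases le_abs'.1 h3 with h4 | h4
    · exact le_abs'.2 (Or.inl (by omega))
    · exact le_abs'.2 (Or.inr (by omega))
  · have h3 : 3 * (m : ℤ) ≤ |lv v - 1| := by omega
    rcases le_abs'.1 h3 with h4 | h4
    · obtain ⟨w, hw, hw2⟩ := TH.row_above hE hf hN
      refine ⟨v, hv, w, hw, Or.inl ?_⟩
      rw [s1]
      exact le_abs'.2 (Or.inl (by omega))
    · obtain ⟨w, hw, hw2⟩ := TH.row_below hN
      refine ⟨v, hv, w, hw, Or.inl ?_⟩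
      rw [s1]
      exact le_abs'.2 (Or.inr (by omega))

theorem far_word {E : Finset (Pt × Pt)} (hE : IsPoly E) (hN : Nw E f0 ≠ 0) {i : ℕ} (hi : 4 ≤ i)
    (h : ¬ VE E ⊆ PP (2 ^ i - 1) (2 ^ i - 1)) {p : Pt × Pt} {τ : ℕ → Bool} {N : ℕ} (hp : Poly p.1 p.2 τ N)
    (hEp : E = pe p.1 p.2 τ N) : wr τ N ∉ WCA N (i - 2) := by
  intro hw
  obtain ⟨a, ha, b, hb, hab⟩ := far_pair hE hN h
  rw [hEp] at ha hb
  have h1 := near hp hw ha hb
  obtain ⟨k, rfl⟩ : ∃ k, i = k + 2 := ⟨i - 2, by omega⟩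
  rw [show k + 2 - 2 = k by omega] at h1
  have h2k : 4 ≤ 2 ^ k := by
    calc 4 = 2 ^ 2 := rfl
      _ ≤ 2 ^ k := Nat.pow_le_pow_right (by norm_num) (by omega)
  have e2 : 2 ^ (k + 2) = 4 * 2 ^ k := by rw [pow_add]; ring
  have e3 : ((2 ^ (k + 2) - 1 : ℕ) : ℤ) = 4 * (2 : ℤ) ^ k - 1 := by
    rw [Nat.cast_sub (by omega), e2]
    push_cast
    ring
  rw [e3] at hab
  have e4 : (4 : ℤ) ^ k = 2 ^ k * 2 ^ k := by rw [← mul_pow]; norm_num
  rw [e4] at h1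
  have h3 : (4 : ℤ) ≤ 2 ^ k := by exact_mod_cast h2k
  generalize (2 : ℤ) ^ k = M at *
  have b1 : lv (a - b) ^ 2 ≤ 4 * nrm (a - b) := by
    unfold lv nrm
    nlinarith [sq_nonneg (a - b).1]
  have b2 : nn (a - b) ^ 2 ≤ 4 * nrm (a - b) := by
    unfold nn nrm
    nlinarith [sq_nonneg ((a - b).1 + (a - b).2)]
  have key : ∀ x : ℤ, 3 * (4 * M - 1) - 1 ≤ |x| → x ^ 2 ≤ 4 * (25 * (M * M)) → False := by
    intro x hx hx2
    have h5 : (3 * (4 * M - 1) - 1) ^ 2 ≤ x ^ 2 := by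
      rw [← sq_abs x]
      exact pow_le_pow_left₀ (by omega) hx 2
    nlinarith
  rcases hab with h4 | h4
  · exact key _ h4 (b1.trans (by linarith))
  · exact key _ h4 (b2.trans (by linarith))

end PGA

end HexObs
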