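import Pool.Agent.PGA.Geo
import Pool.Agent.WX.LogSharp

/-!
# The long and the short polygons around a face at every scale (helper46)

From the weights of the closed words of `N` letters, `P1 : gf (CyA N) ≤ C N ^ (-3/2)` and
`P2 : gf (CyA N \ WCA N K) ≤ C N 2 ^ (-(10/3) K)`: **`hlong`**, **`hshort`** in the form of `WX.sums_sharp`
(`p = 3/4`, `δ = 1`).
-/

set_option autoImplicit false

open scoped ENNReal

namespace HexObs

namespace PGA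

open LP SDN Finset

/-- the polygons around the central face -/
abbrev PF : Type := {E : Finset (Pt × Pt) // IsPoly E ∧ Nw E f0 ≠ 0}

/-- the weight -/
noncomputable def wP (E : PF) : ℝ≥0∞ := ENNReal.ofReal (xc ^ E.1.card)

/-- the number of the sites -/
def lenP (E : PF) : ℕ := E.1.card

lemma PP_mono' {m n : ℕ} (h : m ≤ n) : PP m m ⊆ PP n n := by
  intro v hv
  rw [mem_PP] at hv ⊢
  have h' : (m : ℤ) ≤ n := by exact_mod_cast h
  refine ⟨hv.1, ?_, ?_⟩ <;> omega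

lemma ex_box {E : Finset (Pt × Pt)} (hE : IsPoly E) : ∃ m, 1 ≤ m ∧ VE E ⊆ PP m m := by
  refine ⟨1 + ∑ v ∈ VE E, (|lv v - 1| + |nn v - 1|).natAbs, by omega, fun v hv => ?_⟩
  have h1 : (|lv v - 1| + |nn v - 1|).natAbs ≤ ∑ v ∈ VE E, (|lv v - 1| + |nn v - 1|).natAbs :=
    Finset.single_le_sum (f := fun v => (|lv v - 1| + |nn v - 1|).natAbs) (fun _ _ => Nat.zero_le _) hv
  rw [mem_PP]
  have h2 := abs_nonneg (lv v - 1)
  have h3 := abs_nonneg (nn v - 1)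
  generalize ∑ v ∈ VE E, (|lv v - 1| + |nn v - 1|).natAbs = S at h1 ⊢
  refine ⟨TH.vt_of_mem hE hv, ?_, ?_⟩ <;> push_cast <;> omega

/-- the size: the smallest centred box -/
noncomputable def rk (E : PF) : ℕ := sInf {m | 1 ≤ m ∧ VE E.1 ⊆ PP m m}

lemma rk_spec (E : PF) : 1 ≤ rk E ∧ VE E.1 ⊆ PP (rk E) (rk E) := Nat.sInf_mem (s := {m | 1 ≤ m ∧ VE E.1 ⊆ PP m m}) (ex_box E.2.1)

lemma rk_le_iff (E : PF) {T : ℕ} (hT : 1 ≤ T) : rk E ≤ T ↔ VE E.1 ⊆ PP T T :=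
  ⟨fun h => (rk_spec E).2.trans (PP_mono' h), fun h => Nat.sInf_le ⟨hT, h⟩⟩

lemma card_PP {m : ℕ} (hm : 1 ≤ m) : (PP m m).card ≤ 441 * m ^ 2 := by
  have h1 : PP m m ⊆ (Finset.Icc (-(6 * m + 4) : ℤ) (6 * m + 4)) ×ˢ (Finset.Icc (-(6 * m + 4) : ℤ) (6 * m + 4)) := by
    intro v hv
    have h2 := mem_PP.1 hv
    rw [Finset.mem_product, Finset.mem_Icc, Finset.mem_Icc]
    obtain ⟨-, h3, h4⟩ := h2
    unfold lv at h3
    unfold nn at h4
    rw [abs_lt] at h3 h4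
    omega
  refine (Finset.card_le_card h1).trans ?_
  rw [Finset.card_product, Int.card_Icc]
  have e : (6 * (m : ℤ) + 4 + 1 - -(6 * m + 4)).toNat = 12 * m + 9 := by omega
  rw [e]
  have h5 : 12 * m + 9 ≤ 21 * m := by omega
  calc (12 * m + 9) * (12 * m + 9) ≤ (21 * m) * (21 * m) := Nat.mul_le_mul h5 h5
    _ = 441 * m ^ 2 := by ring

/-- a class of polygons with `N` sites in the box `PP m m` -/
theorem cls_le {N m : ℕ} (hN : 1 ≤ N) (hm : 1 ≤ m) {A : Set (List Bool)} {g : ℝ} (hg : 0 ≤ g)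
    (hA : gf A ≤ ENNReal.ofReal g) (Q : PF → Prop) (hQ : ∀ E, Q E → lenP E = N ∧ VE E.1 ⊆ PP m m)
    (hQA : ∀ E, Q E → ∀ p ∈ E.1, ∀ τ : ℕ → Bool, Poly p.1 p.2 τ N → E.1 = pe p.1 p.2 τ N → wr τ N ∈ A) :
    ∑' E : {E // Q E}, wP E ≤ ENNReal.ofReal (2646 * (m : ℝ) ^ 2 * g / N) := by
  have hN0 : (0 : ℝ) < N := by exact_mod_cast hN
  let S : Set (Finset (Pt × Pt)) := {E | ∃ h : IsPoly E ∧ Nw E f0 ≠ 0, Q ⟨E, h⟩}
  have h1 := cnt (N := N) (A := A) (B := PP m m) S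
    (fun E hE => by
      obtain ⟨h, h2⟩ := hE
      exact ⟨h.1, (hQ _ h2).1, (hQ _ h2).2⟩)
    (fun E hE p hp τ h3 h4 => by
      obtain ⟨h, h2⟩ := hE
      exact hQA _ h2 p hp τ h3 h4)
  have h2 : ∑' E : {E // Q E}, wP E ≤ ∑' E : S, ENNReal.ofReal (xc ^ N) := by
    have h3 : ∀ E : {E // Q E}, wP E = (fun _ : S => ENNReal.ofReal (xc ^ N)) ⟨E.1.1, E.1.2, E.2⟩ := by
      intro E
      show ENNReal.ofReal (xc ^ E.1.1.card) = ENNReal.ofReal (xc ^ N)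
      have := (hQ E.1 E.2).1
      unfold lenP at this
      rw [this]
    rw [tsum_congr h3]
    exact ENNReal.tsum_comp_le_tsum_of_injective (f := fun E : {E // Q E} => (⟨E.1.1, E.1.2, E.2⟩ : S))
      (fun a b h => by
        have h' : a.1.1 = b.1.1 := congrArg (fun z : S => z.1) h
        exact Subtype.ext (Subtype.ext h')) _
  refine h2.trans ?_
  have h5 : (N : ℝ≥0∞) * ∑' E : S, ENNReal.ofReal (xc ^ N) ≤ ENNReal.ofReal (2646 * (m : ℝ) ^ 2 * g) := by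
    refine h1.trans ((mul_le_mul' le_rfl hA).trans ?_)
    rw [← ENNReal.ofReal_natCast, ← ENNReal.ofReal_mul (Nat.cast_nonneg _)]
    refine ENNReal.ofReal_le_ofReal (mul_le_mul_of_nonneg_right ?_ hg)
    have h6 : 6 * (PP m m).card ≤ 2646 * m ^ 2 := by
      have := card_PP hm
      omega
    exact_mod_cast h6
  rw [ENNReal.ofReal_div_of_pos hN0, ENNReal.ofReal_natCast]
  rw [ENNReal.le_div_iff_mul_le (Or.inl (by simpa using (by omega : N ≠ 0))) (Or.inl (ENNReal.natCast_ne_top N)),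
    mul_comm]
  exact h5

lemma lenP_pos (E : PF) : 1 ≤ lenP E := by
  obtain ⟨v, d, τ, m, h, hE⟩ := E.2.1
  unfold lenP
  rw [hE, pe_card h]
  exact h.pos

/-- a tail of the series of the inverse squares -/
lemma tail_sq {x c : ℝ} (hx : 0 < x) (hc : 0 ≤ c) :
    ∑' N : ℕ, ENNReal.ofReal (if x < N then c * ((N : ℝ) ^ 2)⁻¹ else 0) ≤ ENNReal.ofReal (c * 2 / x) := by
  refine ENNReal.tsum_le_of_sum_range_le fun n => ?_
  rw [← ENNReal.ofReal_sum_of_nonneg (fun N _ => by split_ifs <;> positivity)]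
  refine ENNReal.ofReal_le_ofReal ?_
  rw [← Finset.sum_filter]
  set k := ⌊x⌋₊ with hk
  have h1 : (range n).filter (fun N : ℕ => x < N) ⊆ Finset.Ioo k n := by
    intro N hN
    rw [Finset.mem_filter, Finset.mem_range] at hN
    rw [Finset.mem_Ioo]
    exact ⟨(Nat.floor_lt hx.le).2 hN.2, hN.1⟩
  have h2 : ∑ N ∈ (range n).filter (fun N : ℕ => x < N), c * ((N : ℝ) ^ 2)⁻¹ ≤
      ∑ N ∈ Finset.Ioo k n, c * ((N : ℝ) ^ 2)⁻¹ :=
    Finset.sum_le_sum_of_subset_of_nonneg h1 fun _ _ _ => by positivity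
  refine h2.trans ?_
  rw [← Finset.mul_sum]
  have h3 : ∑ N ∈ Finset.Ioo k n, ((N : ℝ) ^ 2)⁻¹ ≤ 2 / (k + 1) := sum_Ioo_inv_sq_le k n
  have h4 : (2 : ℝ) / (k + 1) ≤ 2 / x := by
    have : x < k + 1 := Nat.lt_floor_add_one x
    exact div_le_div_of_nonneg_left (by norm_num) hx this.le
  calc c * ∑ N ∈ Finset.Ioo k n, ((N : ℝ) ^ 2)⁻¹ ≤ c * (2 / x) := mul_le_mul_of_nonneg_left (h3.trans h4) hc
    _ = c * 2 / x := by ring

lemma four_scale (i : ℕ) : (2 : ℝ) ^ ((i : ℝ) / (3 / 4)) = ((2 : ℝ) ^ (4 / 3 : ℝ)) ^ i := by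
  rw [← Real.rpow_natCast, ← Real.rpow_mul two_pos.le]
  congr 1
  ring

/-- **the long polygons** -/
theorem hlong {C1 : ℝ} (hC1 : 0 ≤ C1)
    (P1 : ∀ N : ℕ, 1 ≤ N → gf (CyA N) ≤ ENNReal.ofReal (C1 * (N : ℝ) ^ (-(3 / 2) : ℝ))) :
    WX.HLong wP lenP rk (3 / 4) 1 (21168 * C1) := by
  intro i l hl
  have hl0 : 0 < l := by linarith
  obtain ⟨x, hx⟩ : ∃ x, x = l * (2 : ℝ) ^ ((i : ℝ) / (3 / 4)) := ⟨_, rfl⟩
  have hx0 : 0 < x := by rw [hx]; positivity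
  rw [← hx]
  refine (WX.tsum_iUnion_scale (Q := fun N (E : PF) => (2 ^ i ≤ rk E ∧ rk E < 2 ^ (i + 1) ∧ x < lenP E) ∧ lenP E = N)
    fun E hE => ⟨lenP E, hE, rfl⟩).trans ?_
  obtain ⟨D, hD⟩ : ∃ D : ℝ, D = 2646 * ((2 ^ (i + 1) : ℕ) : ℝ) ^ 2 * C1 := ⟨_, rfl⟩
  have hD0 : 0 ≤ D := by rw [hD]; positivity
  have h1 : ∀ N : ℕ, ∑' E : {E : PF // (2 ^ i ≤ rk E ∧ rk E < 2 ^ (i + 1) ∧ x < lenP E) ∧ lenP E = N}, wP E ≤
      ENNReal.ofReal (if x < N then D * x ^ (-(1 / 2) : ℝ) * ((N : ℝ) ^ 2)⁻¹ else 0) := by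
    intro N
    split_ifs with hN
    · have hN0 : (0 : ℝ) < N := hx0.trans hN
      have hN1 : 1 ≤ N := by
        rcases Nat.eq_zero_or_pos N with h | h
        · rw [h, Nat.cast_zero] at hN0
          exact absurd hN0 (lt_irrefl _)
        · exact h
      have h2 := cls_le hN1 (m := 2 ^ (i + 1)) Nat.one_le_two_pow (A := CyA N)
        (g := C1 * (N : ℝ) ^ (-(3 / 2) : ℝ)) (by positivity) (P1 N hN1)
        (fun E => (2 ^ i ≤ rk E ∧ rk E < 2 ^ (i + 1) ∧ x < lenP E) ∧ lenP E = N)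
        (fun E hE => ⟨hE.2, (rk_spec E).2.trans (PP_mono' hE.1.2.1.le)⟩)
        (fun E _ p _ τ h3 _ => wr_mem h3)
      refine h2.trans (ENNReal.ofReal_le_ofReal ?_)
      have e1 : (N : ℝ) ^ (-(3 / 2) : ℝ) / N = (N : ℝ) ^ (-(1 / 2) : ℝ) * ((N : ℝ) ^ 2)⁻¹ := by
        rw [← Real.rpow_natCast, ← Real.rpow_neg hN0.le, ← Real.rpow_add hN0, div_eq_mul_inv,
          ← Real.rpow_neg_one (N : ℝ), ← Real.rpow_add hN0]
        norm_num
      have e2 : (N : ℝ) ^ (-(1 / 2) : ℝ) ≤ x ^ (-(1 / 2) : ℝ) :=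
        Real.rpow_le_rpow_of_nonpos hx0 hN.le (by norm_num)
      calc 2646 * ((2 ^ (i + 1) : ℕ) : ℝ) ^ 2 * (C1 * (N : ℝ) ^ (-(3 / 2) : ℝ)) / N =
          D * ((N : ℝ) ^ (-(3 / 2) : ℝ) / N) := by rw [hD]; ring
        _ = D * ((N : ℝ) ^ (-(1 / 2) : ℝ) * ((N : ℝ) ^ 2)⁻¹) := by rw [e1]
        _ ≤ D * (x ^ (-(1 / 2) : ℝ) * ((N : ℝ) ^ 2)⁻¹) :=
            mul_le_mul_of_nonneg_left (mul_le_mul_of_nonneg_right e2 (by positivity)) hD0
        _ = _ := by ring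
    · have : IsEmpty {E : PF // (2 ^ i ≤ rk E ∧ rk E < 2 ^ (i + 1) ∧ x < lenP E) ∧ lenP E = N} :=
        ⟨fun E => hN (by rw [← E.2.2]; exact E.2.1.2.2)⟩
      rw [tsum_empty]
      exact zero_le
  refine (ENNReal.tsum_le_tsum h1).trans ((tail_sq hx0 (by positivity)).trans (ENNReal.ofReal_le_ofReal ?_))
  -- the numbers
  have e1 : x ^ (-(1 / 2) : ℝ) / x = x ^ (-(3 / 2) : ℝ) := by
    rw [div_eq_mul_inv, ← Real.rpow_neg_one x, ← Real.rpow_add hx0]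
    norm_num
  have e2 : x ^ (-(3 / 2) : ℝ) = l ^ (-(3 / 2) : ℝ) * ((4 : ℝ) ^ i)⁻¹ := by
    rw [hx, Real.mul_rpow hl0.le (by positivity)]
    congr 1
    rw [← Real.rpow_mul two_pos.le, show (4 : ℝ) = 2 ^ (2 : ℝ) by norm_num, ← Real.rpow_natCast,
      ← Real.rpow_mul two_pos.le, ← Real.rpow_neg two_pos.le]
    congr 1
    ring
  have e3 : ((2 ^ (i + 1) : ℕ) : ℝ) ^ 2 = 4 * 4 ^ i := by
    push_cast
    rw [pow_succ (2 : ℝ) i, show (4 : ℝ) ^ i = ((2 : ℝ) ^ i) ^ 2 by rw [← pow_mul, mul_comm, pow_mul]; norm_num]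
    ring
  have e4 : l ^ (-(3 / 2) : ℝ) ≤ l ^ (-1 : ℝ) := Real.rpow_le_rpow_of_exponent_le hl (by norm_num)
  have h4 : (0 : ℝ) < 4 ^ i := by positivity
  calc D * x ^ (-(1 / 2) : ℝ) * 2 / x = 2 * D * (x ^ (-(1 / 2) : ℝ) / x) := by ring
    _ = 2 * D * (l ^ (-(3 / 2) : ℝ) * ((4 : ℝ) ^ i)⁻¹) := by rw [e1, e2]
    _ = 21168 * C1 * l ^ (-(3 / 2) : ℝ) := by
        rw [hD, e3]
        field_simp
        ring
    _ ≤ 21168 * C1 * l ^ (-1 : ℝ) := mul_le_mul_of_nonneg_left e4 (by positivity)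

/-- **the short polygons** -/
theorem hshort {C1 C2 : ℝ} (hC1 : 0 ≤ C1) (hC2 : 0 ≤ C2)
    (P1 : ∀ N : ℕ, 1 ≤ N → gf (CyA N) ≤ ENNReal.ofReal (C1 * (N : ℝ) ^ (-(3 / 2) : ℝ)))
    (P2 : ∀ N K : ℕ, 1 ≤ N → gf {t | t ∈ CyA N ∧ t ∉ WCA N K} ≤
      ENNReal.ofReal (C2 * N * (2 : ℝ) ^ (-(10 / 3) * (K : ℝ)))) :
    WX.HShort wP lenP rk (3 / 4) 1 (10584 * (1024 * C1 + 128 * C2)) := by
  intro i l hl
  have hl0 : 0 < l := by linarith
  obtain ⟨G, hG⟩ : ∃ G : ℝ, G = 1024 * C1 + 128 * C2 := ⟨_, rfl⟩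
  have hG0 : 0 ≤ G := by rw [hG]; positivity
  rw [← hG]
  obtain ⟨x, hx⟩ : ∃ x, x = l⁻¹ * (2 : ℝ) ^ ((i : ℝ) / (3 / 4)) := ⟨_, rfl⟩
  have hx0 : 0 < x := by rw [hx]; positivity
  rw [← hx]
  refine (WX.tsum_iUnion_scale (Q := fun N (E : PF) => (2 ^ i ≤ rk E ∧ rk E < 2 ^ (i + 1) ∧ (lenP E : ℝ) ≤ x) ∧ lenP E = N)
    fun E hE => ⟨lenP E, hE, rfl⟩).trans ?_
  obtain ⟨D, hD⟩ : ∃ D : ℝ, D = 2646 * ((2 ^ (i + 1) : ℕ) : ℝ) ^ 2 * (G * (2 : ℝ) ^ (-(10 / 3) * (i : ℝ))) := ⟨_, rfl⟩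
  have hD0 : 0 ≤ D := by rw [hD]; positivity
  have h1 : ∀ N : ℕ, ∑' E : {E : PF // (2 ^ i ≤ rk E ∧ rk E < 2 ^ (i + 1) ∧ (lenP E : ℝ) ≤ x) ∧ lenP E = N}, wP E ≤
      if N ∈ Finset.Icc 1 ⌊x⌋₊ then ENNReal.ofReal D else 0 := by
    intro N
    split_ifs with hN
    · rw [Finset.mem_Icc] at hN
      have hN1 := hN.1
      have hN0 : (0 : ℝ) < N := by exact_mod_cast hN1
      have hN1' : (1 : ℝ) ≤ N := by exact_mod_cast hN1
      have h3 : ∀ A : Set (List Bool), gf A ≤ ENNReal.ofReal (G * N * (2 : ℝ) ^ (-(10 / 3) * (i : ℝ))) →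
          (∀ E : PF, ((2 ^ i ≤ rk E ∧ rk E < 2 ^ (i + 1) ∧ (lenP E : ℝ) ≤ x) ∧ lenP E = N) → ∀ p ∈ E.1, ∀ τ : ℕ → Bool,
            Poly p.1 p.2 τ N → E.1 = pe p.1 p.2 τ N → wr τ N ∈ A) →
          ∑' E : {E : PF // (2 ^ i ≤ rk E ∧ rk E < 2 ^ (i + 1) ∧ (lenP E : ℝ) ≤ x) ∧ lenP E = N}, wP E ≤
            ENNReal.ofReal D := by
        intro A hA hA2
        have h2 := cls_le hN1 (m := 2 ^ (i + 1)) Nat.one_le_two_pow (A := A)
          (g := G * N * (2 : ℝ) ^ (-(10 / 3) * (i : ℝ))) (by positivity) hA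
          (fun E => (2 ^ i ≤ rk E ∧ rk E < 2 ^ (i + 1) ∧ (lenP E : ℝ) ≤ x) ∧ lenP E = N)
          (fun E hE => ⟨hE.2, (rk_spec E).2.trans (PP_mono' hE.1.2.1.le)⟩) hA2
        refine h2.trans (ENNReal.ofReal_le_ofReal (le_of_eq ?_))
        rw [hD]
        field_simp
      rcases Nat.lt_or_ge i 4 with hi | hi
      · refine h3 (CyA N) ((P1 N hN1).trans (ENNReal.ofReal_le_ofReal ?_)) fun E _ p _ τ h4 _ => wr_mem h4
        have h5 : (N : ℝ) ^ (-(3 / 2) : ℝ) ≤ 1 := Real.rpow_le_one_of_one_le_of_nonpos hN1' (by norm_num)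
        have h6 : ((1 : ℝ) / 1024) ≤ (2 : ℝ) ^ (-(10 / 3) * (i : ℝ)) := by
          have h7 : (2 : ℝ) ^ (-10 : ℝ) ≤ (2 : ℝ) ^ (-(10 / 3) * (i : ℝ)) := by
            apply Real.rpow_le_rpow_of_exponent_le one_le_two
            have : (i : ℝ) ≤ 3 := by exact_mod_cast (by omega : i ≤ 3)
            linarith
          refine le_trans (le_of_eq ?_) h7
          rw [Real.rpow_neg two_pos.le]
          norm_num
        have h8 : (1 : ℝ) / 1024 ≤ N * (2 : ℝ) ^ (-(10 / 3) * (i : ℝ)) := by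
          calc (1 : ℝ) / 1024 = 1 * (1 / 1024) := by ring
            _ ≤ N * (2 : ℝ) ^ (-(10 / 3) * (i : ℝ)) := mul_le_mul hN1' h6 (by norm_num) hN0.le
        calc C1 * (N : ℝ) ^ (-(3 / 2) : ℝ) ≤ C1 * 1 := mul_le_mul_of_nonneg_left h5 hC1
          _ = 1024 * C1 * (1 / 1024) := by ring
          _ ≤ 1024 * C1 * (N * (2 : ℝ) ^ (-(10 / 3) * (i : ℝ))) := mul_le_mul_of_nonneg_left h8 (by positivity)
          _ ≤ G * (N * (2 : ℝ) ^ (-(10 / 3) * (i : ℝ))) := by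
              refine mul_le_mul_of_nonneg_right ?_ (by positivity)
              rw [hG]
              linarith
          _ = _ := by ring
      · refine h3 {t | t ∈ CyA N ∧ t ∉ WCA N (i - 2)} ((P2 N (i - 2) hN1).trans (ENNReal.ofReal_le_ofReal ?_))
          fun E hE p hp τ h4 h5 => ⟨wr_mem h4, ?_⟩
        · have h5 : (2 : ℝ) ^ (-(10 / 3) * ((i - 2 : ℕ) : ℝ)) ≤ 128 * (2 : ℝ) ^ (-(10 / 3) * (i : ℝ)) := by
            rw [Nat.cast_sub (by omega), Nat.cast_two,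
              show -(10 / 3) * ((i : ℝ) - 2) = 20 / 3 + -(10 / 3) * (i : ℝ) by ring, Real.rpow_add two_pos]
            refine mul_le_mul_of_nonneg_right ?_ (by positivity)
            calc (2 : ℝ) ^ (20 / 3 : ℝ) ≤ (2 : ℝ) ^ (7 : ℝ) :=
                  Real.rpow_le_rpow_of_exponent_le one_le_two (by norm_num)
              _ = 128 := by
                  rw [show (7 : ℝ) = ((7 : ℕ) : ℝ) by norm_num, Real.rpow_natCast]
                  norm_num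
          calc C2 * N * (2 : ℝ) ^ (-(10 / 3) * ((i - 2 : ℕ) : ℝ)) ≤
              C2 * N * (128 * (2 : ℝ) ^ (-(10 / 3) * (i : ℝ))) := mul_le_mul_of_nonneg_left h5 (by positivity)
            _ = 128 * C2 * (N * (2 : ℝ) ^ (-(10 / 3) * (i : ℝ))) := by ring
            _ ≤ G * (N * (2 : ℝ) ^ (-(10 / 3) * (i : ℝ))) := by
                refine mul_le_mul_of_nonneg_right ?_ (by positivity)
                rw [hG]
                linarith
            _ = _ := by ring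
        · refine far_word E.2.1 E.2.2 hi ?_ h4 h5
          intro hc
          have h6 : 1 ≤ 2 ^ i - 1 := by
            have : 2 ^ 4 ≤ 2 ^ i := Nat.pow_le_pow_right (by norm_num) hi
            omega
          have h7 := (rk_le_iff E h6).2 hc
          have h8 := hE.1.1
          omega
    · have : IsEmpty {E : PF // (2 ^ i ≤ rk E ∧ rk E < 2 ^ (i + 1) ∧ (lenP E : ℝ) ≤ x) ∧ lenP E = N} := by
        refine ⟨fun E => hN ?_⟩
        have h2 := E.2.2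
        have h3 := lenP_pos E.1
        have h4 := E.2.1.2.2
        rw [Finset.mem_Icc, ← h2]
        exact ⟨h3, Nat.le_floor h4⟩
      rw [tsum_empty]
  refine (ENNReal.tsum_le_tsum h1).trans ?_
  rw [tsum_eq_sum (s := Finset.Icc 1 ⌊x⌋₊) (fun N hN => if_neg hN), Finset.sum_congr rfl (fun N hN => if_pos hN),
    Finset.sum_const, Nat.card_Icc, Nat.add_sub_cancel, nsmul_eq_mul, ← ENNReal.ofReal_natCast,
    ← ENNReal.ofReal_mul (Nat.cast_nonneg _)]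
  refine ENNReal.ofReal_le_ofReal ?_
  have e3 : ((2 ^ (i + 1) : ℕ) : ℝ) ^ 2 = 4 * 4 ^ i := by
    push_cast
    rw [pow_succ (2 : ℝ) i, show (4 : ℝ) ^ i = ((2 : ℝ) ^ i) ^ 2 by rw [← pow_mul, mul_comm, pow_mul]; norm_num]
    ring
  have e4 : (2 : ℝ) ^ ((i : ℝ) / (3 / 4)) * 4 ^ i * (2 : ℝ) ^ (-(10 / 3) * (i : ℝ)) = 1 := by
    have e5 : (4 : ℝ) ^ i = (2 : ℝ) ^ (2 * (i : ℝ)) := by
      rw [Real.rpow_mul two_pos.le, Real.rpow_natCast]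
      norm_num
    rw [e5, ← Real.rpow_add two_pos, ← Real.rpow_add two_pos]
    rw [show (i : ℝ) / (3 / 4) + 2 * (i : ℝ) + -(10 / 3) * (i : ℝ) = 0 by ring, Real.rpow_zero]
  calc (⌊x⌋₊ : ℝ) * D ≤ x * D := mul_le_mul_of_nonneg_right (Nat.floor_le hx0.le) hD0
    _ = 10584 * G * l⁻¹ * ((2 : ℝ) ^ ((i : ℝ) / (3 / 4)) * 4 ^ i * (2 : ℝ) ^ (-(10 / 3) * (i : ℝ))) := by
        rw [hD, e3, hx]
        ring
    _ = 10584 * G * l ^ (-1 : ℝ) := by rw [e4, mul_one, Real.rpow_neg_one]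

end PGA

end HexObs
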