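import Pool.Agent.PGA.Scale
import Pool.Agent.WX.FaceG
import Pool.Agent.WX.Planar

/-!
# The area of the polygons by length, up to a constant (helper46)

**`area_sharp`**: from the mass of the separating polygons of the sphere lattice (`WX.sLog`) and the weights of the
closed words of `N` letters (`P1`, `P2`): the total area of the self-avoiding polygons with at most `n` sites, up to
translation, is `log n / (8 π) + O(1)`.
-/

set_option autoImplicit false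

open scoped ENNReal

namespace HexObs

namespace PGA

open LP SDN Finset TH
open NUI (ZP)

lemma sum_rk {T : ℕ} (hT : 1 ≤ T) :
    ∑' E : {E : PF // rk E ≤ T}, wP E = ENNReal.ofReal (LL (HexObs.LP.PP T T) f0) := by
  classical
  unfold LL
  rw [ENNReal.ofReal_sum_of_nonneg fun E _ => pow_nonneg xc_pos.le _, ← Finset.tsum_subtype]
  have hm : ∀ E : Finset (Pt × Pt), E ∈ (polys (HexObs.LP.PP T T)).filter (fun E => Nw E f0 ≠ 0) ↔
      ∃ h : IsPoly E ∧ Nw E f0 ≠ 0, rk ⟨E, h⟩ ≤ T := by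
    intro E
    rw [Finset.mem_filter, mem_polys]
    constructor
    · rintro ⟨⟨h1, h2⟩, h3⟩
      exact ⟨⟨h1, h3⟩, (rk_le_iff ⟨E, h1, h3⟩ hT).2 h2⟩
    · rintro ⟨h, h2⟩
      exact ⟨⟨h.1, (rk_le_iff ⟨E, h⟩ hT).1 h2⟩, h.2⟩
  let e : {E : PF // rk E ≤ T} ≃ {E // E ∈ (polys (HexObs.LP.PP T T)).filter (fun E => Nw E f0 ≠ 0)} :=
    { toFun := fun E => ⟨E.1.1, (hm _).2 ⟨E.1.2, E.2⟩⟩
      invFun := fun E => ⟨⟨E.1, ((hm _).1 E.2).choose⟩, ((hm _).1 E.2).choose_spec⟩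
      left_inv := fun _ => rfl
      right_inv := fun _ => rfl }
  exact e.tsum_eq fun E => ENNReal.ofReal (xc ^ E.1.card)

lemma sum_rk_zero : ∑' E : {E : PF // rk E ≤ 0}, wP E = 0 := by
  have : IsEmpty {E : PF // rk E ≤ 0} := ⟨fun E => by
    have h1 := (rk_spec E.1).1
    have h2 := E.2
    omega⟩
  exact tsum_empty

lemma sum_len (n : ℕ) : ∑' E : {E : PF // lenP E ≤ n}, wP E =
    2 * ∑' L : {L : List (ℤ × ℤ) // HexPolygon.Polygon L ∧ L.length ≤ n}, HexPolygon.wt L.1 * (area L.1 : ℝ≥0∞) := by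
  rw [← tsum_len n]
  let e : {E : PF // lenP E ≤ n} ≃ PXn n :=
    { toFun := fun E => ⟨E.1.1, E.1.2.1, E.1.2.2, E.2⟩
      invFun := fun E => ⟨⟨E.1, E.2.1, E.2.2.1⟩, E.2.2.2⟩
      left_inv := fun _ => rfl
      right_inv := fun _ => rfl }
  exact e.tsum_eq fun E => ENNReal.ofReal (xc ^ E.1.card)

/-- **the area of the polygons with at most `n` sites** -/
theorem area_sharp (hS : ∃ C : ℝ, ∀ N : ℕ, 1 ≤ N → |(ZP N).coeff 1 - 1 / (3 * Real.pi) * Real.log N| ≤ C)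
    {C1 C2 : ℝ} (hC1 : 0 ≤ C1) (hC2 : 0 ≤ C2)
    (P1 : ∀ N : ℕ, 1 ≤ N → gf (CyA N) ≤ ENNReal.ofReal (C1 * (N : ℝ) ^ (-(3 / 2) : ℝ)))
    (P2 : ∀ N K : ℕ, 1 ≤ N → gf {t | t ∈ CyA N ∧ t ∉ WCA N K} ≤
      ENNReal.ofReal (C2 * N * (2 : ℝ) ^ (-(10 / 3) * (K : ℝ)))) :
    (∀ n : ℕ, ∑' L : {L : List (ℤ × ℤ) // HexPolygon.Polygon L ∧ L.length ≤ n},
      HexPolygon.wt L.1 * (area L.1 : ℝ≥0∞) ≠ ∞) ∧
    ∃ C : ℝ, ∀ n : ℕ, 1 ≤ n → |(∑' L : {L : List (ℤ × ℤ) // HexPolygon.Polygon L ∧ L.length ≤ n},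
      HexPolygon.wt L.1 * (area L.1 : ℝ≥0∞)).toReal - Real.log n / (8 * Real.pi)| ≤ C := by
  obtain ⟨K, hK⟩ := WX.mass_log hS
  have hpi := Real.pi_pos
  obtain ⟨Cm, hCm⟩ : ∃ Cm, Cm = max (21168 * C1) (10584 * (1024 * C1 + 128 * C2)) := ⟨_, rfl⟩
  have hCm0 : 0 ≤ Cm := by rw [hCm]; exact le_max_of_le_left (by positivity)
  have hl : WX.HLong wP lenP rk (3 / 4) 1 Cm := fun i l hl =>
    (hlong hC1 P1 i l hl).trans (ENNReal.ofReal_le_ofReal (mul_le_mul_of_nonneg_right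
      (by rw [hCm]; exact le_max_left _ _) (Real.rpow_nonneg (by linarith) _)))
  have hs : WX.HShort wP lenP rk (3 / 4) 1 Cm := fun i l hl =>
    (hshort hC1 hC2 P1 P2 i l hl).trans (ENNReal.ofReal_le_ofReal (mul_le_mul_of_nonneg_right
      (by rw [hCm]; exact le_max_right _ _) (Real.rpow_nonneg (by linarith) _)))
  have hA0 : ∀ T : ℕ, ∑' E : {E : PF // rk E ≤ T}, wP E ≠ ∞ := by
    intro T
    rcases Nat.eq_zero_or_pos T with h | h
    · rw [h, sum_rk_zero]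
      exact ENNReal.zero_ne_top
    · rw [sum_rk h]
      exact ENNReal.ofReal_ne_top
  have hLL : ∀ T : ℕ, 0 ≤ LL (HexObs.LP.PP T T) f0 := by
    intro T
    unfold LL
    exact Finset.sum_nonneg fun E _ => pow_nonneg xc_pos.le _
  obtain ⟨h1, K', h2⟩ := WX.sums_sharp (w := wP) (len := lenP) (row := rk) (a := 1 / (3 * Real.pi)) (p := 3 / 4)
    (δ := 1) (C := Cm) (by positivity) (by norm_num) one_pos hCm0 (fun E => (rk_spec E).1) hl hs hA0
    ⟨K, fun T hT => by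
      rw [sum_rk hT, ENNReal.toReal_ofReal (hLL T)]
      exact hK T T hT le_rfl⟩
  have h3 : ∀ n : ℕ, ∑' L : {L : List (ℤ × ℤ) // HexPolygon.Polygon L ∧ L.length ≤ n},
      HexPolygon.wt L.1 * (area L.1 : ℝ≥0∞) ≠ ∞ := by
    intro n hn
    have h4 := sum_len n
    rw [hn, ENNReal.mul_top (by norm_num)] at h4
    rcases Nat.eq_zero_or_pos n with h | h
    · have : IsEmpty {E : PF // lenP E ≤ n} := ⟨fun E => by
        have h5 := lenP_pos E.1
        have h6 := E.2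
        omega⟩
      rw [tsum_empty] at h4
      exact ENNReal.zero_ne_top h4
    · exact h1 n h h4
  refine ⟨h3, K' / 2, fun n hn => ?_⟩
  have h4 := h2 n hn
  rw [sum_len n, ENNReal.toReal_mul, ENNReal.toReal_ofNat] at h4
  have e : ∀ x : ℝ, x - Real.log n / (8 * Real.pi) = (2 * x - 3 / 4 * (1 / (3 * Real.pi)) * Real.log n) / 2 := by
    intro x
    field_simp
    ring
  rw [e, abs_div, abs_two]
  linarith

end PGA

end HexObs
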