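import Pool.Agent.HexLoop.Wind
import Pool.Agent.SDN.Frames

/-!
# Polygons as sets of directed edges and closed turn words (helper46)

* `CyA N`: closed words with `N` letters (literal of `POL.Cy`);
* `wr τ m`: the turn word of a rooted polygon; `wr_mem`: it is a closed word;
* **`cnt`**: `N` times the weight of a class of polygons with `N` edges in a box is at most six times the number
  of the vertices of the box times the weight of the class of their turn words.
-/

set_option autoImplicit false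

open scoped ENNReal

namespace HexObs

namespace PGA

open LP SDN Finset

/-- closed words: the self-avoiding polygons with N edges, with a first edge (in the direction up) -/
def CyA (N : ℕ) : Set (List Bool) :=
  {t | t.length = N ∧ vx oo up t N = oo ∧ dx up t N = up ∧ ∀ i j, i < N → j < N → vx oo up t i = vx oo up t j → i = j}

/-- closed words whose rotations are in the box of radius 2 ^ K -/
def WCA (N K : ℕ) : Set (List Bool) :=
  {t | t ∈ CyA N ∧ ∀ X Y : List Bool, t = X ++ Y → ∀ i, i ≤ N → ∀ dir, |row dir (vx oo up (Y ++ X) i)| ≤ 2 ^ K}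

/-- the turns of a rooted polygon as a word -/
def wr (τ : ℕ → Bool) (m : ℕ) : List Bool := (List.range m).map τ

lemma wr_length (τ : ℕ → Bool) (m : ℕ) : (wr τ m).length = m := by
  unfold wr
  rw [List.length_map, List.length_range]

lemma tf_wr {τ : ℕ → Bool} {m i : ℕ} (h : i < m) : tf (wr τ m) i = τ i := by
  have h1 : i < (wr τ m).length := by rw [wr_length]; exact h
  unfold tf
  rw [List.getD_eq_getElem _ _ h1]
  unfold wr
  rw [List.getElem_map, List.getElem_range]

lemma vx_wr (v d : Pt) (τ : ℕ → Bool) {m i : ℕ} (h : i ≤ m) : vx v d (wr τ m) i = vs v d τ i :=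
  vs_congr i fun k hk => tf_wr (by omega)

lemma dx_wr (d : Pt) (τ : ℕ → Bool) {m i : ℕ} (h : i ≤ m) : dx d (wr τ m) i = ds d τ i :=
  ds_congr i fun k hk => tf_wr (by omega)

lemma mulE_zero {u : Pt} : mulE u 0 = 0 := by
  unfold mulE
  simp

/-- the turn word of a rooted polygon is a closed word -/
theorem wr_mem {v d : Pt} {τ : ℕ → Bool} {m : ℕ} (h : Poly v d τ m) : wr τ m ∈ CyA m := by
  obtain ⟨hc, hd⟩ := frame_dir h.de.1
  have hu : nrm (rotTo up d) = 1 := mem_dirs.1 hc
  set u := rotTo up d with hud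
  have hv : ∀ i, i ≤ m → vs v d τ i = v + mulE u (vx oo up (wr τ m) i) := by
    intro i hi
    rw [← vx_wr v d τ hi, ← vx_frameN, ← hd]
  have hdx : ∀ i, i ≤ m → ds d τ i = mulE u (dx up (wr τ m) i) := by
    intro i hi
    rw [← dx_wr d τ hi, ← dx_mulE, ← hd]
  refine ⟨wr_length τ m, ?_, ?_, ?_⟩
  · have h1 := hv m le_rfl
    rw [h.clv] at h1
    have h2 : mulE u (vx oo up (wr τ m) m) = mulE u 0 := by
      rw [mulE_zero]
      exact (left_eq_add.1 h1)
    exact mulE_inj hu h2
  · have h1 := hdx m le_rfl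
    rw [h.cld] at h1
    exact mulE_inj hu (h1.symm.trans hd)
  · intro i j hi hj hij
    have h1 : vs v d τ i = vs v d τ j := by rw [hv i hi.le, hv j hj.le, hij]
    rcases lt_trichotomy i j with h2 | h2 | h2
    · exact absurd h1 (h.inj i j h2 hj)
    · exact h2
    · exact absurd h1.symm (h.inj j i h2 hi)

/-- the directed edges of the polygon with the first directed edge p and the turn word t -/
def eT (p : Pt × Pt) (t : List Bool) : Finset (Pt × Pt) := (range t.length).image fun i => (vx p.1 p.2 t i, dx p.2 t i)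

lemma pe_eq (v d : Pt) (τ : ℕ → Bool) (m : ℕ) : pe v d τ m = eT (v, d) (wr τ m) := by
  unfold pe eT
  rw [wr_length]
  refine Finset.image_congr fun i hi => ?_
  have hi' : i ≤ m := (Finset.mem_range.1 (Finset.mem_coe.1 hi)).le
  show eg v d τ i = (vx v d (wr τ m) i, dx d (wr τ m) i)
  rw [vx_wr v d τ hi', dx_wr d τ hi']
  rfl

/-- the rotations of the turn word -/
theorem wr_rot {v d : Pt} {τ : ℕ → Bool} {m k : ℕ} (h : Poly v d τ m) (hk : k ≤ m) :
    ∃ X Y : List Bool, wr τ m = X ++ Y ∧ wr (fun i => τ (k + i)) m = Y ++ X := by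
  refine ⟨wr τ k, wr (fun i => τ (k + i)) (m - k), ?_, ?_⟩
  · unfold wr
    have e : m = k + (m - k) := by omega
    conv_lhs => rw [e, List.range_add, List.map_append, List.map_map]
    rfl
  · unfold wr
    have e : m = (m - k) + k := by omega
    conv_lhs => rw [e, List.range_add, List.map_append, List.map_map]
    congr 1
    refine List.map_congr_left fun i hi => ?_
    show τ (k + ((m - k) + i)) = τ i
    rw [show k + ((m - k) + i) = i + m by omega]
    exact h.per i

/-- **the count** -/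
theorem cnt {N : ℕ} {A : Set (List Bool)} {B : Finset Pt} (S : Set (Finset (Pt × Pt)))
    (hS : ∀ E ∈ S, IsPoly E ∧ E.card = N ∧ VE E ⊆ B)
    (hA : ∀ E ∈ S, ∀ p ∈ E, ∀ τ : ℕ → Bool, Poly p.1 p.2 τ N → E = pe p.1 p.2 τ N → wr τ N ∈ A) :
    (N : ℝ≥0∞) * ∑' E : S, ENNReal.ofReal (xc ^ N) ≤ ((6 * B.card : ℕ) : ℝ≥0∞) * gf A := by
  classical
  have hroot : ∀ a : (Σ E : S, {p : Pt × Pt // p ∈ E.1}), ∃ τ : ℕ → Bool,
      Poly a.2.1.1 a.2.1.2 τ N ∧ a.1.1 = pe a.2.1.1 a.2.1.2 τ N := by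
    rintro ⟨⟨E, hE⟩, ⟨p, hp⟩⟩
    obtain ⟨h1, h2, h3⟩ := hS E hE
    obtain ⟨τ, m, h4, h5⟩ := root_at h1 hp
    have h6 : m = N := by rw [← pe_card h4, ← h5, h2]
    subst h6
    exact ⟨τ, h4, h5⟩
  choose φ hφ1 hφ2 using hroot
  let g : (Σ E : S, {p : Pt × Pt // p ∈ E.1}) → (↥(B ×ˢ dirs) × A) := fun a =>
    (⟨a.2.1, by
      obtain ⟨h1, h2, h3⟩ := hS a.1.1 a.1.2
      exact Finset.mem_product.2 ⟨h3 (Finset.mem_image.2 ⟨a.2.1, a.2.2, rfl⟩), (isPoly_de h1 a.2.2).1⟩⟩,
     ⟨wr (φ a) N, hA _ a.1.2 _ a.2.2 _ (hφ1 a) (hφ2 a)⟩)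
  have hinj : Function.Injective g := by
    intro a b hab
    have h1 : a.2.1 = b.2.1 := congrArg (fun z => z.1.1) hab
    have h2 : wr (φ a) N = wr (φ b) N := congrArg (fun z => z.2.1) hab
    have h3 : a.1.1 = b.1.1 := by
      rw [hφ2 a, hφ2 b, pe_eq, pe_eq, h2]
      congr 1
    obtain ⟨⟨E, hE⟩, ⟨p, hp⟩⟩ := a
    obtain ⟨⟨E', hE'⟩, ⟨p', hp'⟩⟩ := b
    simp only at h1 h3
    subst h3
    subst h1
    rfl
  have h1 : (N : ℝ≥0∞) * ∑' E : S, ENNReal.ofReal (xc ^ N) =
      ∑' a : (Σ E : S, {p : Pt × Pt // p ∈ E.1}), wE (g a).2.1 := by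
    rw [ENNReal.tsum_sigma', ← ENNReal.tsum_mul_left]
    refine tsum_congr fun E => ?_
    have h2 : ∀ p : {p : Pt × Pt // p ∈ E.1}, wE (g ⟨E, p⟩).2.1 = ENNReal.ofReal (xc ^ N) := by
      intro p
      show ENNReal.ofReal (xc ^ (wr _ N).length) = _
      rw [wr_length]
    simp only [h2]
    rw [tsum_fintype, Finset.sum_const, Finset.card_univ, Fintype.card_coe, (hS E.1 E.2).2.1, nsmul_eq_mul]
  rw [h1]
  refine (ENNReal.tsum_comp_le_tsum_of_injective hinj fun z => wE z.2.1).trans (le_of_eq ?_)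
  rw [ENNReal.tsum_prod', tsum_fintype]
  show ∑ _a : ↥(B ×ˢ dirs), gf A = _
  rw [Finset.sum_const, Finset.card_univ, Fintype.card_coe, Finset.card_product, nsmul_eq_mul]
  have h4 : dirs.card = 6 := by decide
  rw [h4, mul_comm B.card 6]

end PGA

end HexObs
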